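import Mathlib

/-!
Cosecant bounds used for the numerators of an exact cover by regular sequences.
-/

namespace Pool.Agent.Helper47.Fr

open Real

/-- Taylor lower bound for the sine, degree 7. -/
theorem sin_ge_taylor7 {u : ℝ} (hu : 0 ≤ u) :
    u - u ^ 3 / 6 + u ^ 5 / 120 - u ^ 7 / 5040 ≤ Real.sin u := by
  -- chain of monotonicity arguments
  have key : ∀ (f f' : ℝ → ℝ), (∀ x, HasDerivAt f (f' x) x) → f 0 = 0 →
      (∀ x, 0 ≤ x → 0 ≤ f' x) → ∀ x, 0 ≤ x → 0 ≤ f x := by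
    intro f f' hf h0 hpos x hx
    have hmono : MonotoneOn f (Set.Ici 0) := by
      apply monotoneOn_of_deriv_nonneg (convex_Ici 0)
      · exact fun y _ => (hf y).continuousAt.continuousWithinAt
      · exact fun y _ => (hf y).differentiableAt.differentiableWithinAt
      · intro y hy
        rw [(hf y).deriv]
        rw [interior_Ici] at hy
        exact hpos y (le_of_lt hy)
    have := hmono (Set.mem_Ici.2 le_rfl) (Set.mem_Ici.2 hx) hx
    rwa [h0] at this
  -- cos x ≥ 1 - x^2/2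
  have c2 : ∀ x : ℝ, 0 ≤ x → 0 ≤ Real.cos x - (1 - x ^ 2 / 2) := by
    intro x _
    have := Real.one_sub_sq_div_two_le_cos (x := x)
    linarith
  have s3 : ∀ x : ℝ, 0 ≤ x → 0 ≤ Real.sin x - (x - x ^ 3 / 6) := by
    apply key _ (fun x => Real.cos x - (1 - x ^ 2 / 2))
    · intro x
      have h1 := (Real.hasDerivAt_sin x)
      have h2 : HasDerivAt (fun y : ℝ => y - y ^ 3 / 6) (1 - x ^ 2 / 2) x := by
        have h3 : HasDerivAt (fun y : ℝ => y - y ^ 3 / 6) _ x :=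
          (hasDerivAt_id' x).sub ((hasDerivAt_pow 3 x).div_const 6)
        exact h3.congr_deriv (by norm_num; ring)
      exact h1.sub h2
    · simp
    · exact c2
  have c4 : ∀ x : ℝ, 0 ≤ x → 0 ≤ (1 - x ^ 2 / 2 + x ^ 4 / 24) - Real.cos x := by
    apply key _ (fun x => Real.sin x - (x - x ^ 3 / 6))
    · intro x
      have h1 := (Real.hasDerivAt_cos x)
      have h2 : HasDerivAt (fun y : ℝ => 1 - y ^ 2 / 2 + y ^ 4 / 24) (-(x - x ^ 3 / 6)) x := by
        have h3 : HasDerivAt (fun y : ℝ => 1 - y ^ 2 / 2 + y ^ 4 / 24) _ x :=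
          ((hasDerivAt_const x (1 : ℝ)).sub ((hasDerivAt_pow 2 x).div_const 2)).add
          ((hasDerivAt_pow 4 x).div_const 24)
        exact h3.congr_deriv (by norm_num; ring)
      exact (h2.sub h1).congr_deriv (by ring)
    · simp
    · exact s3
  have s5 : ∀ x : ℝ, 0 ≤ x → 0 ≤ (x - x ^ 3 / 6 + x ^ 5 / 120) - Real.sin x := by
    apply key _ (fun x => (1 - x ^ 2 / 2 + x ^ 4 / 24) - Real.cos x)
    · intro x
      have h1 := (Real.hasDerivAt_sin x)
      have h2 : HasDerivAt (fun y : ℝ => y - y ^ 3 / 6 + y ^ 5 / 120)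
          (1 - x ^ 2 / 2 + x ^ 4 / 24) x := by
        have h3 : HasDerivAt (fun y : ℝ => y - y ^ 3 / 6 + y ^ 5 / 120) _ x :=
          ((hasDerivAt_id' x).sub ((hasDerivAt_pow 3 x).div_const 6)).add
          ((hasDerivAt_pow 5 x).div_const 120)
        exact h3.congr_deriv (by norm_num; ring)
      exact h2.sub h1
    · simp
    · exact c4
  have c6 : ∀ x : ℝ, 0 ≤ x → 0 ≤ Real.cos x - (1 - x ^ 2 / 2 + x ^ 4 / 24 - x ^ 6 / 720) := by
    apply key _ (fun x => (x - x ^ 3 / 6 + x ^ 5 / 120) - Real.sin x)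
    · intro x
      have h1 := (Real.hasDerivAt_cos x)
      have h2 : HasDerivAt (fun y : ℝ => 1 - y ^ 2 / 2 + y ^ 4 / 24 - y ^ 6 / 720)
          (-(x - x ^ 3 / 6 + x ^ 5 / 120)) x := by
        have h3 : HasDerivAt (fun y : ℝ => 1 - y ^ 2 / 2 + y ^ 4 / 24 - y ^ 6 / 720) _ x :=
          (((hasDerivAt_const x (1 : ℝ)).sub ((hasDerivAt_pow 2 x).div_const 2)).add
          ((hasDerivAt_pow 4 x).div_const 24)).sub ((hasDerivAt_pow 6 x).div_const 720)
        exact h3.congr_deriv (by norm_num; ring)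
      exact (h1.sub h2).congr_deriv (by ring)
    · simp
    · exact s5
  have s7 : ∀ x : ℝ, 0 ≤ x →
      0 ≤ Real.sin x - (x - x ^ 3 / 6 + x ^ 5 / 120 - x ^ 7 / 5040) := by
    apply key _ (fun x => Real.cos x - (1 - x ^ 2 / 2 + x ^ 4 / 24 - x ^ 6 / 720))
    · intro x
      have h1 := (Real.hasDerivAt_sin x)
      have h2 : HasDerivAt (fun y : ℝ => y - y ^ 3 / 6 + y ^ 5 / 120 - y ^ 7 / 5040)
          (1 - x ^ 2 / 2 + x ^ 4 / 24 - x ^ 6 / 720) x := by
        have h3 : HasDerivAt (fun y : ℝ => y - y ^ 3 / 6 + y ^ 5 / 120 - y ^ 7 / 5040) _ x :=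
          (((hasDerivAt_id' x).sub ((hasDerivAt_pow 3 x).div_const 6)).add
          ((hasDerivAt_pow 5 x).div_const 120)).sub ((hasDerivAt_pow 7 x).div_const 5040)
        exact h3.congr_deriv (by norm_num; ring)
      exact h1.sub h2
    · simp
    · exact c6
  have := s7 u hu
  linarith

/-- `u ≤ (1 + 0.232 u²) sin u` on `[0, π/2]`. -/
theorem le_sin_mul {u : ℝ} (hu : 0 ≤ u) (hu2 : u ≤ Real.pi / 2) :
    u ≤ (1 + 29 / 125 * u ^ 2) * Real.sin u := by
  have h1 := sin_ge_taylor7 hu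
  have hpi : Real.pi < 3.1416 := Real.pi_lt_d4
  have hub : u ≤ 1.5708 := by linarith
  set w := u ^ 2 with hw
  have hw0 : 0 ≤ w := sq_nonneg u
  have hw1 : w ≤ 2.46742 := by rw [hw]; nlinarith
  have hpos : 0 ≤ 1 + 29 / 125 * w := by positivity
  have h2 : (1 + 29 / 125 * w) * (u - u ^ 3 / 6 + u ^ 5 / 120 - u ^ 7 / 5040) ≤
      (1 + 29 / 125 * w) * Real.sin u := mul_le_mul_of_nonneg_left h1 hpos
  refine le_trans ?_ h2
  have h3 : (1 + 29 / 125 * w) * (u - u ^ 3 / 6 + u ^ 5 / 120 - u ^ 7 / 5040) - u =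
      u * (w * ((29 / 125 - 1 / 6) + (1 / 120 - 29 / 750) * w +
        (29 / 15000 - 1 / 5040) * w ^ 2 - 29 / 630000 * w ^ 3)) := by
    rw [hw]; ring
  have h4 : 0 ≤ (29 / 125 - 1 / 6) + (1 / 120 - 29 / 750) * w +
        (29 / 15000 - 1 / 5040) * w ^ 2 - 29 / 630000 * w ^ 3 := by
    nlinarith [mul_nonneg hw0 (sub_nonneg.2 hw1), mul_nonneg (mul_nonneg hw0 hw0) (sub_nonneg.2 hw1),
      sq_nonneg (w - 2.46742)]
  have h5 : 0 ≤ u * (w * ((29 / 125 - 1 / 6) + (1 / 120 - 29 / 750) * w +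
        (29 / 15000 - 1 / 5040) * w ^ 2 - 29 / 630000 * w ^ 3)) := by positivity
  linarith

end Pool.Agent.Helper47.Fr
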