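import Mathlib
import Pool.Agent.Helper47.Fr.Csc

/-!
Basic notions for numerators of exact covers by regular sequences (MP_1d4ead_co).
-/

namespace Pool.Agent.Helper47.Fr

open Finset

/-- The distance of `a / b` modulo `D` to `0`. -/
def xd (D a b : ℕ) : ℕ := ((a : ZMod D) * (b : ZMod D)⁻¹).valMinAbs.natAbs

/-- `sin (π/D) / sin (π x/D)`. -/
noncomputable def f (D x : ℕ) : ℝ := Real.sin (Real.pi / D) / Real.sin (Real.pi * x / D)

/-- The system of cosecant inequalities. -/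
structure Sys (D : ℕ) (I : Finset ℕ) : Prop where
  pos : ∀ a ∈ I, 0 < a
  cop : ∀ a ∈ I, a.Coprime D
  sum_le : ∑ a ∈ I, a ≤ D
  C : ∀ a ∈ I, 1 ≤ ∑ b ∈ I.erase a, f D (xd D a b)

theorem Sys.le {D : ℕ} {I : Finset ℕ} (h : Sys D I) {a : ℕ} (ha : a ∈ I) : a ≤ D :=
  le_trans (Finset.single_le_sum (f := fun x => x) (fun _ _ => Nat.zero_le _) ha) h.sum_le

theorem Sys.lt {D : ℕ} {I : Finset ℕ} (h : Sys D I) {a b : ℕ} (ha : a ∈ I) (hb : b ∈ I)
    (hab : a ≠ b) : a + b ≤ D := by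
  have h1 : ∑ x ∈ ({a, b} : Finset ℕ), x ≤ ∑ x ∈ I, x :=
    Finset.sum_le_sum_of_subset (by
      intro x hx; simp at hx; rcases hx with rfl | rfl <;> assumption)
  rw [Finset.sum_pair hab] at h1
  exact le_trans h1 h.sum_le

theorem xd_le {D a b : ℕ} (hD : 0 < D) : 2 * xd D a b ≤ D := by
  have : NeZero D := ⟨hD.ne'⟩
  have := ZMod.natAbs_valMinAbs_le ((a : ZMod D) * (b : ZMod D)⁻¹)
  unfold xd
  omega

theorem xd_spec {D a b : ℕ} (hD : 2 ≤ D) (hb : b.Coprime D) (haD : a < D) :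
    ∃ t : ℕ, b * xd D a b = t * D + a ∨ b * xd D a b + a = t * D := by
  have : NeZero D := ⟨by omega⟩
  set z : ZMod D := (a : ZMod D) * (b : ZMod D)⁻¹ with hz
  have hm : ((z.valMinAbs : ℤ) : ZMod D) = z := ZMod.coe_valMinAbs z
  have hbz : (b : ZMod D) * z = a := by
    rw [hz, mul_comm, mul_assoc, mul_comm ((b : ZMod D)⁻¹)]
    rw [ZMod.coe_mul_inv_eq_one b hb, mul_one]
  have hdvd : (D : ℤ) ∣ (b : ℤ) * z.valMinAbs - a := by
    rw [← ZMod.intCast_zmod_eq_zero_iff_dvd]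
    push_cast
    first
      | rw [hm, hbz, sub_self]
      | rw [hbz, sub_self]
  obtain ⟨k, hk⟩ := hdvd
  have hx : xd D a b = z.valMinAbs.natAbs := rfl
  rw [hx]
  rcases le_or_gt 0 z.valMinAbs with h0 | h0
  · have h1 : ((z.valMinAbs.natAbs : ℕ) : ℤ) = z.valMinAbs := by omega
    have hk0 : 0 ≤ k := by
      by_contra hneg
      push Not at hneg
      have h2 : (D : ℤ) * k ≤ -D := by nlinarith
      have h3 : 0 ≤ (b : ℤ) * z.valMinAbs := by positivity
      omega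
    refine ⟨k.toNat, Or.inl ?_⟩
    have : ((b * z.valMinAbs.natAbs : ℕ) : ℤ) = ((k.toNat * D + a : ℕ) : ℤ) := by
      rw [Nat.cast_mul, h1, Nat.cast_add, Nat.cast_mul, Int.toNat_of_nonneg hk0]
      linarith
    exact_mod_cast this
  · have h1 : ((z.valMinAbs.natAbs : ℕ) : ℤ) = -z.valMinAbs := by omega
    have hk0 : k ≤ 0 := by
      by_contra hneg
      push Not at hneg
      have h2 : (D : ℤ) ≤ (D : ℤ) * k := by nlinarith
      have h3 : (b : ℤ) * z.valMinAbs ≤ 0 := by nlinarith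
      omega
    refine ⟨(-k).toNat, Or.inr ?_⟩
    have : ((b * z.valMinAbs.natAbs + a : ℕ) : ℤ) = (((-k).toNat * D : ℕ) : ℤ) := by
      rw [Nat.cast_add, Nat.cast_mul, h1, Nat.cast_mul, Int.toNat_of_nonneg (by omega)]
      linarith
    exact_mod_cast this

theorem xd_pos {D a b : ℕ} (hD : 2 ≤ D) (ha : 0 < a) (hb : b.Coprime D) (haD : a < D) :
    1 ≤ xd D a b := by
  obtain ⟨t, ht⟩ := xd_spec hD hb haD
  rcases Nat.eq_zero_or_pos (xd D a b) with h0 | h0
  · rw [h0] at ht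
    rcases ht with ht | ht
    · have : t * D + a = 0 := by omega
      omega
    · have h1 : a = t * D := by omega
      rcases Nat.eq_zero_or_pos t with rfl | h2
      · omega
      · nlinarith
  · exact h0

/-- The upper bound `1/x + 2.29 x / D²`. -/
theorem f_le {D x : ℕ} (hx : 1 ≤ x) (hxD : 2 * x ≤ D) :
    f D x ≤ 1 / x + 229 / 100 * x / D ^ 2 := by
  have hD : 0 < D := by omega
  have hDr : (0 : ℝ) < D := by exact_mod_cast hD
  have hxr : (1 : ℝ) ≤ x := by exact_mod_cast hx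
  have hpi := Real.pi_pos
  set u : ℝ := Real.pi * x / D with hu
  have hu0 : 0 < u := by positivity
  have hu2 : u ≤ Real.pi / 2 := by
    rw [hu, div_le_div_iff₀ hDr (by norm_num)]
    have : (2 : ℝ) * x ≤ D := by exact_mod_cast hxD
    nlinarith
  have h1 := le_sin_mul hu0.le hu2
  have hs : 0 < Real.sin u := Real.sin_pos_of_pos_of_lt_pi hu0 (by linarith)
  have h2 : Real.sin (Real.pi / D) ≤ Real.pi / D := Real.sin_le (by positivity)
  have h3 : f D x ≤ (Real.pi / D) / Real.sin u := by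
    unfold f
    exact div_le_div_of_nonneg_right h2 hs.le
  have h4 : 1 / Real.sin u ≤ (1 + 29 / 125 * u ^ 2) / u := by
    rw [div_le_div_iff₀ hs hu0]
    linarith
  have h5 : (Real.pi / D) / Real.sin u ≤ (Real.pi / D) * ((1 + 29 / 125 * u ^ 2) / u) := by
    rw [div_eq_mul_one_div]
    exact mul_le_mul_of_nonneg_left h4 (by positivity)
  have h6 : (Real.pi / D) * ((1 + 29 / 125 * u ^ 2) / u) =
      1 / x + 29 / 125 * Real.pi ^ 2 * x / D ^ 2 := by
    rw [hu]
    have : (x : ℝ) ≠ 0 := by linarith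
    field_simp
  have hpi4 : Real.pi < 3.1416 := Real.pi_lt_d4
  have h7 : 29 / 125 * Real.pi ^ 2 ≤ 229 / 100 := by nlinarith
  have h8 : 29 / 125 * Real.pi ^ 2 * x / D ^ 2 ≤ 229 / 100 * x / D ^ 2 := by
    apply div_le_div_of_nonneg_right _ (by positivity)
    exact mul_le_mul_of_nonneg_right h7 (by linarith)
  linarith

end Pool.Agent.Helper47.Fr
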