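import Mathlib
import Pool.Agent.Helper47.Fr.Base

/-!
The profit form of the inequalities.
-/

namespace Pool.Agent.Helper47.Fr

open Finset

theorem prof_t {D a b t x : ℕ} (ha : 0 < a) (hb : 0 < b) (haD : a < D)
    (hx1 : 1 ≤ x) (hx2 : 2 * x ≤ D) (ht : 1 ≤ t)
    (hbx : b * x = t * D + a ∨ b * x + a = t * D) :
    ((D : ℝ) - a) * f D x - b ≤ (b : ℝ) / t - b + 229 / 200 ∧
    ((D : ℝ) - a) * f D x - b ≤ (b : ℝ) / t - b + 229 / 100 * t / b := by
  have hD0 : 0 < D := by omega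
  have har : (0 : ℝ) < a := by exact_mod_cast ha
  have hbr : (0 : ℝ) < b := by exact_mod_cast hb
  have hDr : (0 : ℝ) < D := by exact_mod_cast hD0
  have haDr : (a : ℝ) < D := by exact_mod_cast haD
  have hx1r : (1 : ℝ) ≤ x := by exact_mod_cast hx1
  have hx2r : (2 : ℝ) * x ≤ D := by exact_mod_cast hx2
  have htr : (1 : ℝ) ≤ t := by exact_mod_cast ht
  have hlow : (t : ℝ) * D - a ≤ b * x := by
    rcases hbx with h | h
    · have : (b : ℝ) * x = t * D + a := by exact_mod_cast h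
      linarith
    · have : (b : ℝ) * x + a = t * D := by exact_mod_cast h
      linarith
  have hupp : (b : ℝ) * x ≤ t * D + a := by
    rcases hbx with h | h
    · have : (b : ℝ) * x = t * D + a := by exact_mod_cast h
      linarith
    · have : (b : ℝ) * x + a = t * D := by exact_mod_cast h
      linarith
  have hf := f_le hx1 hx2
  have hDa : (0 : ℝ) ≤ (D : ℝ) - a := by linarith
  have h1 : ((D : ℝ) - a) * f D x ≤ ((D : ℝ) - a) * (1 / x + 229 / 100 * x / D ^ 2) :=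
    mul_le_mul_of_nonneg_left hf hDa
  have h2 : ((D : ℝ) - a) * (1 / x) ≤ (b : ℝ) / t := by
    rw [mul_one_div, div_le_div_iff₀ (by linarith) (by linarith)]
    nlinarith
  have h3 : ((D : ℝ) - a) * (229 / 100 * x / D ^ 2) ≤ 229 / 200 := by
    rw [mul_div_assoc', div_le_iff₀ (by positivity)]
    nlinarith
  have h4 : ((D : ℝ) - a) * (229 / 100 * x / D ^ 2) ≤ 229 / 100 * t / b := by
    rw [mul_div_assoc', div_le_div_iff₀ (by positivity) hbr]
    have h5 : ((D : ℝ) - a) * (b * x) ≤ t * D ^ 2 := by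
      have h6 : ((D : ℝ) - a) * (b * x) ≤ ((D : ℝ) - a) * (t * D + a) :=
        mul_le_mul_of_nonneg_left hupp hDa
      nlinarith [mul_nonneg har.le hDr.le, mul_nonneg (mul_nonneg har.le hDr.le)
        (sub_nonneg.2 htr)]
    nlinarith
  constructor
  · nlinarith
  · nlinarith

theorem prof_one {D a b t x : ℕ} (ha : 0 < a) (hb : 0 < b) (haD : a < D)
    (hx1 : 1 ≤ x) (hx2 : 2 * x ≤ D) (ht : 1 ≤ t)
    (hbx : b * x = t * D + a ∨ b * x + a = t * D) :
    ((D : ℝ) - a) * f D x - b ≤ 229 / 100 / b := by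
  obtain ⟨h1, h2⟩ := prof_t ha hb haD hx1 hx2 ht hbx
  have hbr : (0 : ℝ) < b := by exact_mod_cast hb
  rcases Nat.lt_or_ge 1 t with h3 | h3
  · have htr : (2 : ℝ) ≤ t := by exact_mod_cast h3
    have h4 : (b : ℝ) / t ≤ b / 2 := by
      apply div_le_div_of_nonneg_left hbr.le (by norm_num) htr
    have h5 : 229 / 200 - (b : ℝ) / 2 ≤ 229 / 100 / b := by
      rw [le_div_iff₀ hbr]
      nlinarith [sq_nonneg ((b : ℝ) - 229 / 200)]
    linarith
  · have : t = 1 := by omega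
    subst this
    simp only [Nat.cast_one, div_one, mul_one] at h2
    linarith

theorem prof_two {D a b t x : ℕ} (ha : 0 < a) (hb : 0 < b) (haD : a < D)
    (hx1 : 1 ≤ x) (hx2 : 2 * x ≤ D) (ht : 2 ≤ t)
    (hbx : b * x = t * D + a ∨ b * x + a = t * D) :
    ((D : ℝ) - a) * f D x - b ≤ 229 / 200 - b / 2 := by
  obtain ⟨h1, _⟩ := prof_t ha hb haD hx1 hx2 (by omega) hbx
  have hbr : (0 : ℝ) < b := by exact_mod_cast hb
  have htr : (2 : ℝ) ≤ t := by exact_mod_cast ht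
  have h4 : (b : ℝ) / t ≤ b / 2 := by
    apply div_le_div_of_nonneg_left hbr.le (by norm_num) htr
  linarith

theorem Sys.profit {D : ℕ} {I : Finset ℕ} (h : Sys D I) {a : ℕ} (ha : a ∈ I) :
    (D : ℝ) - ∑ b ∈ I, (b : ℝ) ≤ ∑ b ∈ I.erase a, (((D : ℝ) - a) * f D (xd D a b) - b) := by
  have h1 := h.C a ha
  have h2 : (a : ℝ) ≤ D := by exact_mod_cast h.le ha
  have h3 : ((D : ℝ) - a) * 1 ≤ ((D : ℝ) - a) * ∑ b ∈ I.erase a, f D (xd D a b) :=
    mul_le_mul_of_nonneg_left h1 (by linarith)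
  rw [Finset.sum_sub_distrib, ← Finset.mul_sum]
  have h4 : ∑ b ∈ I, (b : ℝ) = ∑ b ∈ I.erase a, (b : ℝ) + a := by
    rw [Finset.sum_erase_add I _ ha]
  linarith

end Pool.Agent.Helper47.Fr
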