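import Mathlib
import Pool.Agent.Helper47.Fr.Prof

/-!
Computing `xd`.
-/

namespace Pool.Agent.Helper47.Fr

open Finset

theorem xd_eq {D a b x : ℕ} (hD : 0 < D) (hb : b.Coprime D) (hx : 2 * x ≤ D)
    (h : (b * x) % D = a % D ∨ (b * x + a) % D = 0) : xd D a b = x := by
  have : NeZero D := ⟨hD.ne'⟩
  have hinv : (b : ZMod D) * (b : ZMod D)⁻¹ = 1 := ZMod.coe_mul_inv_eq_one b hb
  unfold xd
  rcases h with h | h
  · have h1 : ((b * x : ℕ) : ZMod D) = (a : ZMod D) := by
      rw [ZMod.natCast_eq_natCast_iff]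
      exact h
    have h2 : (a : ZMod D) * (b : ZMod D)⁻¹ = ((x : ℤ) : ZMod D) := by
      rw [← h1]
      push_cast
      rw [mul_comm (b : ZMod D) x, mul_assoc, hinv, mul_one]
    have h3 : ((a : ZMod D) * (b : ZMod D)⁻¹).valMinAbs = (x : ℤ) := by
      rw [ZMod.valMinAbs_spec]
      refine ⟨h2, ?_, ?_⟩ <;> omega
    rw [h3]
    exact Int.natAbs_natCast x
  · have h1 : ((b * x + a : ℕ) : ZMod D) = 0 := by
      rw [ZMod.natCast_eq_zero_iff]
      exact Nat.dvd_of_mod_eq_zero h
    have h2 : (a : ZMod D) * (b : ZMod D)⁻¹ = ((-(x : ℤ) : ℤ) : ZMod D) := by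
      push_cast at h1 ⊢
      have h4 : (a : ZMod D) = -((b : ZMod D) * x) := by
        rw [eq_neg_iff_add_eq_zero, add_comm]
        exact h1
      rw [h4, neg_mul, mul_comm (b : ZMod D) x, mul_assoc, hinv, mul_one]
    rcases Nat.lt_or_ge (2 * x) D with h5 | h5
    · have h3 : ((a : ZMod D) * (b : ZMod D)⁻¹).valMinAbs = -(x : ℤ) := by
        rw [ZMod.valMinAbs_spec]
        refine ⟨h2, ?_, ?_⟩ <;> omega
      rw [h3]
      simp
    · have h6 : 2 * x = D := by omega
      have h7 : (a : ZMod D) * (b : ZMod D)⁻¹ = ((x : ℤ) : ZMod D) := by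
        rw [h2]
        push_cast
        rw [neg_eq_iff_add_eq_zero]
        have : ((x + x : ℕ) : ZMod D) = 0 := by
          rw [ZMod.natCast_eq_zero_iff]
          exact ⟨1, by omega⟩
        push_cast at this
        exact this
      have h3 : ((a : ZMod D) * (b : ZMod D)⁻¹).valMinAbs = (x : ℤ) := by
        rw [ZMod.valMinAbs_spec]
        refine ⟨h7, ?_, ?_⟩ <;> omega
      rw [h3]
      exact Int.natAbs_natCast x

/-- Search for `xd`. -/
def srch (D a b : ℕ) : ℕ → ℕ
  | 0 => 0
  | n + 1 => if (b * (n + 1)) % D = a % D ∨ (b * (n + 1) + a) % D = 0 then n + 1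
      else srch D a b n

theorem srch_eq {D a b : ℕ} (hD : 2 ≤ D) (ha : 0 < a) (hb : b.Coprime D) (haD : a < D) (n : ℕ)
    (hn : xd D a b ≤ n) (hn2 : 2 * n ≤ D) : srch D a b n = xd D a b := by
  induction n with
  | zero =>
    have := xd_pos hD ha hb haD
    omega
  | succ n ih =>
    unfold srch
    split_ifs with hc
    · exact (xd_eq (by omega) hb hn2 hc).symm
    · rcases Nat.lt_or_ge n (xd D a b) with h1 | h1
      · have h2 : xd D a b = n + 1 := by omega
        exfalso
        apply hc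
        obtain ⟨t, ht⟩ := xd_spec hD hb haD
        rw [h2] at ht
        rcases ht with ht | ht
        · left
          rw [ht, Nat.add_comm, Nat.add_mul_mod_self_right]
        · right
          rw [ht, Nat.mul_mod_left]
      · exact ih h1 (by omega)

theorem srch_half {D a b : ℕ} (hD : 2 ≤ D) (ha : 0 < a) (hb : b.Coprime D) (haD : a < D) :
    srch D a b (D / 2) = xd D a b := by
  apply srch_eq hD ha hb haD
  · have := xd_le (a := a) (b := b) (show 0 < D by omega)
    omega
  · omega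

/-- The rational upper bound for `f`. -/
def Fq (D x : ℕ) : ℚ := 1 / x + 229 / 100 * x / D ^ 2

theorem f_le_Fq {D x : ℕ} (hx : 1 ≤ x) (hxD : 2 * x ≤ D) : f D x ≤ ((Fq D x : ℚ) : ℝ) := by
  have := f_le hx hxD
  unfold Fq
  push_cast
  exact this

end Pool.Agent.Helper47.Fr
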