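import Mathlib
import Pool.Agent.Helper47.Fr.Uniq

/-!
Finite check for the case of smallest numerator at least two.
-/

namespace Pool.Agent.Helper47.Fr

open Finset

/-- indicator combination -/
def comb {α : Type} [Add α] [Zero α] (g : ℕ → α) (p c : ℕ) (b4 b5 b6 b7 b8 cp : Bool) : α :=
  g c + (if cp then g (c + p) else 0) + (if b4 then g 4 else 0) + (if b5 then g 5 else 0) +
    (if b6 then g 6 else 0) + (if b7 then g 7 else 0) + (if b8 then g 8 else 0)

/-- side condition for one optional element -/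
def okb (D p c b : ℕ) (x : Bool) : Bool :=
  !x || (b != p && b != c && b != c + p && Nat.gcd b D == 1 && (decide (c ≤ b) || b % p == 0))

/-- the check -/
def chk (p c e : ℕ) (b4 b5 b6 b7 b8 cp : Bool) : Bool :=
  let D := p + comb (fun b => b) p c b4 b5 b6 b7 b8 cp + e
  !(decide (p < c) && (c % p != 0) && (b4 || b5 || b6 || b7 || b8 || cp) &&
    Nat.gcd p D == 1 && Nat.gcd c D == 1 && (!cp || Nat.gcd (c + p) D == 1) &&
    okb D p c 4 b4 && okb D p c 5 b5 && okb D p c 6 b6 && okb D p c 7 b7 && okb D p c 8 b8) ||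
  decide (comb (fun b => Fq D (srch D p b (D / 2))) p c b4 b5 b6 b7 b8 cp < 1)

/-- both truth values -/
def tf : List Bool := [true, false]

theorem mem_tf (x : Bool) : x ∈ tf := by cases x <;> simp [tf]

/-- all checks -/
def chkAll : Bool :=
  [2, 3, 4, 5, 6].all fun p => [3, 4, 5, 6, 7].all fun c => [0, 1].all fun e =>
    tf.all fun b4 => tf.all fun b5 => tf.all fun b6 => tf.all fun b7 => tf.all fun b8 =>
      tf.all fun cp => chk p c e b4 b5 b6 b7 b8 cp

theorem chkAll_true : chkAll = true := by decide +kernel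

theorem chk_all {p c e : ℕ} (hp : 2 ≤ p) (hp6 : p ≤ 6) (hc : 3 ≤ c) (hc7 : c ≤ 7) (he : e ≤ 1)
    (b4 b5 b6 b7 b8 cp : Bool) : chk p c e b4 b5 b6 b7 b8 cp = true := by
  have h := chkAll_true
  unfold chkAll at h
  simp only [List.all_eq_true] at h
  exact h p (by simp; omega) c (by simp; omega) e (by simp; omega) b4 (mem_tf _) b5 (mem_tf _)
    b6 (mem_tf _) b7 (mem_tf _) b8 (mem_tf _) cp (mem_tf _)

end Pool.Agent.Helper47.Fr
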