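import Mathlib
import Pool.Agent.Helper47.Fr.Fin

/-!
The smallest numerator of a system with at least three members is `1`.
-/

namespace Pool.Agent.Helper47.Fr

open Finset

/-- profit -/
noncomputable def prof (D a b : ℕ) : ℝ := ((D : ℝ) - a) * f D (xd D a b) - b

theorem Sys.two_le {D : ℕ} {I : Finset ℕ} (h : Sys D I) (h2 : 2 ≤ I.card) : 2 ≤ D := by
  obtain ⟨a, ha, b, hb, hab⟩ := Finset.one_lt_card.1 (show 1 < I.card by omega)
  have := h.lt ha hb hab
  have h1 := h.pos a ha
  have h3 := h.pos b hb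
  omega

theorem Sys.ltD {D : ℕ} {I : Finset ℕ} (h : Sys D I) (h2 : 2 ≤ I.card) {a : ℕ} (ha : a ∈ I) :
    a < D := by
  obtain ⟨b, hb, hab⟩ := Finset.exists_mem_ne (show 1 < I.card by omega) a
  have := h.lt ha hb (Ne.symm hab)
  have h1 := h.pos b hb
  omega

theorem t_of {D a b : ℕ} (hD : 2 ≤ D) (hb : b.Coprime D) (ha : 0 < a) (haD : a < D)
    (hnd : ¬ b ∣ a) :
    ∃ t : ℕ, 1 ≤ t ∧ (b * xd D a b = t * D + a ∨ b * xd D a b + a = t * D) := by
  obtain ⟨t, ht⟩ := xd_spec hD hb haD
  refine ⟨t, ?_, ht⟩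
  by_contra h0
  have h1 : t = 0 := by omega
  subst h1
  rcases ht with ht | ht
  · apply hnd
    exact ⟨xd D a b, by omega⟩
  · omega

theorem Sys.prof_nd {D : ℕ} {I : Finset ℕ} (h : Sys D I) (h2 : 2 ≤ I.card) {a b : ℕ}
    (ha : a ∈ I) (hb : b ∈ I) (hnd : ¬ b ∣ a) :
    prof D a b ≤ 229 / 100 / b ∧
    (¬ (b * xd D a b = D + a ∨ b * xd D a b + a = D) → prof D a b ≤ 229 / 200 - b / 2) := by
  have hD := h.two_le h2
  have haD := h.ltD h2 ha
  have ha0 := h.pos a ha
  have hb0 := h.pos b hb
  have hbc := h.cop b hb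
  obtain ⟨t, ht1, ht⟩ := t_of hD hbc ha0 haD hnd
  have hx1 := xd_pos hD ha0 hbc haD
  have hx2 := xd_le (a := a) (b := b) (show 0 < D by omega)
  constructor
  · exact prof_one ha0 hb0 haD hx1 hx2 ht1 ht
  · intro hn
    have ht2 : 2 ≤ t := by
      by_contra h3
      have h4 : t = 1 := by omega
      subst h4
      apply hn
      simpa using ht
    exact prof_two ha0 hb0 haD hx1 hx2 ht2 ht

theorem Sys.sum_prof {D : ℕ} {I : Finset ℕ} (h : Sys D I) {a : ℕ} (ha : a ∈ I) :
    (D : ℝ) - ∑ b ∈ I, (b : ℝ) ≤ ∑ b ∈ I.erase a, prof D a b := h.profit ha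

theorem Sys.e_nonneg {D : ℕ} {I : Finset ℕ} (h : Sys D I) :
    0 ≤ (D : ℝ) - ∑ b ∈ I, (b : ℝ) := by
  have h1 : ((∑ b ∈ I, b : ℕ) : ℝ) ≤ D := by exact_mod_cast h.sum_le
  push_cast at h1
  linarith

/-- `b ∣ c ± p`. -/
theorem dvd_of_both {D p c b x y : ℕ} (hpc : p < c) (h1 : b * x = D + p ∨ b * x + p = D)
    (h2 : b * y = D + c ∨ b * y + c = D) : b ∣ c + p ∨ b ∣ c - p := by
  have hx : b ∣ b * x := Dvd.intro x rfl
  have hy : b ∣ b * y := Dvd.intro y rfl
  rcases h1 with h1 | h1 <;> rcases h2 with h2 | h2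
  · right
    have h3 := Nat.dvd_sub hy hx
    have h4 : b * y - b * x = c - p := by omega
    rwa [h4] at h3
  · left
    have h3 := Nat.dvd_sub hx hy
    have h4 : b * x - b * y = c + p := by omega
    rwa [h4] at h3
  · left
    have h3 := Nat.dvd_sub hy hx
    have h4 : b * y - b * x = c + p := by omega
    rwa [h4] at h3
  · right
    have h3 := Nat.dvd_sub hx hy
    have h4 : b * x - b * y = c - p := by omega
    rwa [h4] at h3

theorem eq_add_of_both {D p c b x y : ℕ} (hpc : p < c) (hcb : c < b)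
    (h1 : b * x = D + p ∨ b * x + p = D)
    (h2 : b * y = D + c ∨ b * y + c = D) : b = c + p := by
  rcases dvd_of_both hpc h1 h2 with h | h
  · obtain ⟨k, hk⟩ := h
    have hk0 : k ≠ 0 := by rintro rfl; omega
    have hk1 : k < 2 := by
      by_contra h3
      have : b * 2 ≤ b * k := Nat.mul_le_mul_left b (by omega)
      omega
    have : k = 1 := by omega
    subst this
    omega
  · have := Nat.le_of_dvd (by omega) h
    omega

theorem no_ge_two {D : ℕ} {I : Finset ℕ} (h : Sys D I) (h3 : 3 ≤ I.card) {p : ℕ} (hp : p ∈ I)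
    (hmin : ∀ b ∈ I, p ≤ b) (hp2 : 2 ≤ p) : False := by
  have h2 : 2 ≤ I.card := by omega
  have hD := h.two_le h2
  have he := h.e_nonneg
  set S : ℝ := ∑ b ∈ I, (b : ℝ) with hS
  have hndp : ∀ b ∈ I, b ≠ p → ¬ b ∣ p := by
    intro b hb hbp hd
    have := Nat.le_of_dvd (by omega) hd
    have := hmin b hb
    omega
  -- good elements are not multiples of p
  have hgood : ∀ b ∈ I, (b * xd D p b = D + p ∨ b * xd D p b + p = D) → ¬ p ∣ b := by
    intro b hb hg hd
    have h4 : p ∣ D := by
      have h5 : p ∣ b * xd D p b := Dvd.dvd.mul_right hd _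
      rcases hg with hg | hg
      · have h6 : D = b * xd D p b - p := by omega
        rw [h6]
        exact Nat.dvd_sub h5 (dvd_refl p)
      · rw [← hg]
        exact Dvd.dvd.add h5 (dvd_refl p)
    have h6 := h.cop p hp
    have h7 : p ∣ 1 := by
      have := Nat.dvd_gcd (dvd_refl p) h4
      rwa [h6] at this
    have := Nat.le_of_dvd one_pos h7
    omega
  have hEp := h.sum_prof hp
  rw [← hS] at hEp
  -- existence of a non-multiple
  have hex : ∃ b ∈ I, ¬ p ∣ b := by
    by_contra hcon
    push Not at hcon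
    have h4 : ∑ b ∈ I.erase p, prof D p b < 0 := by
      apply Finset.sum_neg
      · intro b hb
        rw [Finset.mem_erase] at hb
        have h5 := (h.prof_nd h2 hp hb.2 (hndp b hb.2 hb.1)).2
          (fun hg => hgood b hb.2 hg (hcon b hb.2))
        have h6 : 4 ≤ b := by
          obtain ⟨k, hk⟩ := hcon b hb.2
          have h7 := hmin b hb.2
          have hk2 : 2 ≤ k := by
            by_contra hk3
            interval_cases k
            · omega
            · apply hb.1; omega
          nlinarith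
        have h7 : (4 : ℝ) ≤ b := by exact_mod_cast h6
        linarith
      · have : 0 < (I.erase p).card := by rw [Finset.card_erase_of_mem hp]; omega
        exact Finset.card_pos.1 this
    linarith
  obtain ⟨c, hc, hcp, hcmin⟩ : ∃ c ∈ I, ¬ p ∣ c ∧ ∀ b ∈ I, ¬ p ∣ b → c ≤ b := by
    have hne : (I.filter (fun b => ¬ p ∣ b)).Nonempty := by
      obtain ⟨b, hb, hb2⟩ := hex
      exact ⟨b, by simp [hb, hb2]⟩
    refine ⟨(I.filter (fun b => ¬ p ∣ b)).min' hne, ?_, ?_, ?_⟩
    · have := Finset.min'_mem _ hne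
      rw [Finset.mem_filter] at this
      exact this.1
    · have := Finset.min'_mem _ hne
      rw [Finset.mem_filter] at this
      exact this.2
    · intro b hb hb2
      exact Finset.min'_le _ _ (by simp [hb, hb2])
  have hcne : c ≠ p := by rintro rfl; exact hcp (dvd_refl c)
  have hpc : p < c := lt_of_le_of_ne (hmin c hc) (Ne.symm hcne)
  have hndc : ∀ b ∈ I, b ≠ c → ¬ b ∣ c := by
    intro b hb hbc hd
    have h4 := Nat.le_of_dvd (h.pos c hc) hd
    have h5 : b < c := lt_of_le_of_ne h4 hbc
    have h6 : p ∣ b := by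
      by_contra h7
      have := hcmin b hb h7
      omega
    exact hcp (dvd_trans h6 hd)
  have hEc := h.sum_prof hc
  rw [← hS] at hEc
  set O := (I.erase p).erase c with hO
  have hOe : (I.erase c).erase p = O := Finset.erase_right_comm
  have hcp' : c ∈ I.erase p := Finset.mem_erase.2 ⟨hcne, hc⟩
  have hpc' : p ∈ I.erase c := Finset.mem_erase.2 ⟨Ne.symm hcne, hp⟩
  rw [← Finset.add_sum_erase _ _ hcp', ← hO] at hEp
  rw [← Finset.add_sum_erase _ _ hpc', hOe] at hEc
  have hOmem : ∀ b, b ∈ O ↔ b ≠ c ∧ b ≠ p ∧ b ∈ I := by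
    intro b
    rw [hO, Finset.mem_erase, Finset.mem_erase]
  have hpr : (2 : ℝ) ≤ p := by exact_mod_cast hp2
  have hc3 : 3 ≤ c := by omega
  have hcr : (3 : ℝ) ≤ c := by exact_mod_cast hc3
  have hpc1 : prof D p c ≤ 229 / 100 / c := (h.prof_nd h2 hp hc (hndp c hc hcne)).1
  have hcp1 : prof D c p ≤ 229 / 100 / p := (h.prof_nd h2 hc hp (hndc p hp (Ne.symm hcne))).1
  -- the elements of O different from c + p
  have hOw : ∀ b ∈ O, b ≠ c + p →
      prof D p b + prof D c b ≤ 229 / 100 / b + (229 / 200 - b / 2) := by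
    intro b hb hbne
    rw [hOmem] at hb
    obtain ⟨hbc, hbp, hbI⟩ := hb
    have q1 := h.prof_nd h2 hp hbI (hndp b hbI hbp)
    have q2 := h.prof_nd h2 hc hbI (hndc b hbI hbc)
    by_cases hg : b * xd D p b = D + p ∨ b * xd D p b + p = D
    · have h4 : c < b := lt_of_le_of_ne (hcmin b hbI (hgood b hbI hg)) (Ne.symm hbc)
      have h5 := q2.2 (fun h6 => hbne (eq_add_of_both hpc h4 hg h6))
      linarith [q1.1]
    · have h5 := q1.2 hg
      linarith [q2.1]
  have hO4 : ∀ b ∈ O, 4 ≤ b := by
    intro b hb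
    rw [hOmem] at hb
    obtain ⟨hbc, hbp, hbI⟩ := hb
    have h4 : p < b := lt_of_le_of_ne (hmin b hbI) (Ne.symm hbp)
    by_contra h5
    have h6 : b = 3 := by omega
    have h7 : p = 2 := by omega
    subst h6 h7
    have := hcmin 3 hbI (by norm_num)
    omega
  have hOne : ∀ b ∈ O, b ≠ c + p → prof D p b + prof D c b ≤ 0 := by
    intro b hb hbne
    have h4 := hOw b hb hbne
    have h5 : (4 : ℝ) ≤ b := by exact_mod_cast hO4 b hb
    have h6 : 229 / 100 / (b : ℝ) ≤ 229 / 100 / 4 :=
      div_le_div_of_nonneg_left (by norm_num) (by norm_num) h5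
    linarith
  -- split off c + p
  have hsplit : ∀ g : ℕ → ℝ, ∑ b ∈ O, g b =
      (if c + p ∈ O then g (c + p) else 0) + ∑ b ∈ O.erase (c + p), g b := by
    intro g
    split_ifs with h4
    · rw [Finset.add_sum_erase _ _ h4]
    · rw [Finset.erase_eq_of_notMem h4, zero_add]
  have hcpK : c + p ∈ O → prof D p (c + p) ≤ 229 / 100 / (c + p : ℝ) ∧
      prof D c (c + p) ≤ 229 / 100 / (c + p : ℝ) := by
    intro h4
    rw [hOmem] at h4
    have q1 := (h.prof_nd h2 hp h4.2.2 (hndp _ h4.2.2 h4.2.1)).1
    have q2 := (h.prof_nd h2 hc h4.2.2 (hndc _ h4.2.2 h4.1)).1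
    push_cast at q1 q2
    exact ⟨q1, q2⟩
  have hK2 : 229 / 100 / (p : ℝ) ≤ 229 / 200 := by
    rw [div_le_iff₀ (by linarith)]; linarith
  have hK3 : 229 / 100 / (c : ℝ) ≤ 229 / 300 := by
    rw [div_le_iff₀ (by linarith)]; linarith
  have hK5 : 229 / 100 / ((c : ℝ) + p) ≤ 229 / 500 := by
    rw [div_le_iff₀ (by linarith)]; linarith
  have h2e : 2 * ((D : ℝ) - S) ≤ 229 / 200 + 229 / 300 + 229 / 250 +
      ∑ b ∈ O.erase (c + p), (prof D p b + prof D c b) := by
    have h4 : ∑ b ∈ O, (prof D p b + prof D c b) ≤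
        229 / 250 + ∑ b ∈ O.erase (c + p), (prof D p b + prof D c b) := by
      rw [hsplit]
      split_ifs with h5
      · have := hcpK h5
        push_cast
        linarith
      · linarith
    rw [Finset.sum_add_distrib] at h4
    linarith
  have hO8 : ∀ b ∈ O.erase (c + p), b ≤ 8 := by
    intro b hb
    by_contra h9
    have hbO := Finset.mem_of_mem_erase hb
    have hbne := Finset.ne_of_mem_erase hb
    have h5 : ∑ b ∈ O.erase (c + p), (prof D p b + prof D c b) ≤ prof D p b + prof D c b := by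
      rw [← Finset.add_sum_erase _ _ hb]
      have h6 : ∑ b' ∈ (O.erase (c + p)).erase b, (prof D p b' + prof D c b') ≤ 0 := by
        apply Finset.sum_nonpos
        intro b' hb'
        have h7 := Finset.mem_of_mem_erase hb'
        exact hOne b' (Finset.mem_of_mem_erase h7) (Finset.ne_of_mem_erase h7)
      linarith
    have h6 := hOw b hbO hbne
    have h7 : (9 : ℝ) ≤ b := by exact_mod_cast (show 9 ≤ b by omega)
    have h8 : 229 / 100 / (b : ℝ) ≤ 229 / 900 := by
      rw [div_le_iff₀ (by linarith)]; linarith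
    linarith
  have h2e' : 2 * ((D : ℝ) - S) < 3 := by
    have h4 : ∑ b ∈ O.erase (c + p), (prof D p b + prof D c b) ≤ 0 := by
      apply Finset.sum_nonpos
      intro b' hb'
      exact hOne b' (Finset.mem_of_mem_erase hb') (Finset.ne_of_mem_erase hb')
    linarith
  -- integer form
  have hSn : S = ((∑ b ∈ I, b : ℕ) : ℝ) := by rw [hS]; push_cast; rfl
  obtain ⟨e, hDe⟩ : ∃ e : ℕ, D = ∑ b ∈ I, b + e := ⟨D - ∑ b ∈ I, b, by have := h.sum_le; omega⟩
  have heR : (D : ℝ) - S = e := by
    rw [hSn]
    have : (D : ℝ) = ((∑ b ∈ I, b : ℕ) : ℝ) + e := by exact_mod_cast hDe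
    linarith
  have he1 : e ≤ 1 := by
    rw [heR] at h2e'
    have : (e : ℝ) < 2 := by linarith
    have h5 : e < 2 := by exact_mod_cast this
    omega
  -- the sum over I
  have hsumI : ∀ g : ℕ → ℝ, ∑ b ∈ I.erase p, g b =
      g c + (if c + p ∈ O then g (c + p) else 0) + ∑ b ∈ O.erase (c + p), g b := by
    intro g
    rw [← Finset.add_sum_erase _ _ hcp', ← hO, hsplit]
    ring
  have hsumIn : ∑ b ∈ I, b =
      p + c + (if c + p ∈ O then (c + p) else 0) + ∑ b ∈ O.erase (c + p), b := by
    have h5 : ∑ b ∈ I, b = p + (c + ∑ b ∈ O, b) := by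
      rw [hO, Finset.add_sum_erase _ (fun b => b) hcp', Finset.add_sum_erase _ (fun b => b) hp]
    rw [h5]
    split_ifs with h4
    · rw [← Finset.add_sum_erase _ (fun b => b) h4]; ring
    · rw [Finset.erase_eq_of_notMem h4]; ring
  rcases Nat.lt_or_ge 7 c with hc8 | hc7
  · -- c ≥ 8
    have hbad : ∀ b ∈ O.erase (c + p), prof D p b ≤ 229 / 200 - b / 2 := by
      intro b hb
      have hbO := Finset.mem_of_mem_erase hb
      rw [hOmem] at hbO
      obtain ⟨hbc, hbp, hbI⟩ := hbO
      have h8 := hO8 b hb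
      have h9 : b < c := by omega
      apply (h.prof_nd h2 hp hbI (hndp b hbI hbp)).2
      intro hg
      have := hcmin b hbI (hgood b hbI hg)
      omega
    have h8r : (8 : ℝ) ≤ c := by exact_mod_cast hc8
    have hK8 : 229 / 100 / (c : ℝ) ≤ 229 / 800 := by
      rw [div_le_iff₀ (by linarith)]; linarith
    have hK10 : 229 / 100 / ((c : ℝ) + p) ≤ 229 / 1000 := by
      rw [div_le_iff₀ (by linarith)]; linarith
    have hE2 : (D : ℝ) - S ≤ 229 / 800 + 229 / 1000 + ∑ b ∈ O.erase (c + p), prof D p b := by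
      have h4 : ∑ b ∈ O, prof D p b ≤ 229 / 1000 + ∑ b ∈ O.erase (c + p), prof D p b := by
        rw [hsplit]
        split_ifs with h5
        · have := (hcpK h5).1
          linarith
        · linarith
      linarith
    have hOempty : O.erase (c + p) = ∅ := by
      by_contra hne
      obtain ⟨b, hb⟩ := Finset.nonempty_iff_ne_empty.2 hne
      have hle : ∀ b ∈ O.erase (c + p), prof D p b ≤ -171 / 200 := by
        intro b hb
        have h4 := hbad b hb
        have h5 : (4 : ℝ) ≤ b := by exact_mod_cast hO4 b (Finset.mem_of_mem_erase hb)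
        linarith
      have h5 : ∑ b ∈ O.erase (c + p), prof D p b ≤ -171 / 200 := by
        rw [← Finset.add_sum_erase _ _ hb]
        have h6 : ∑ b' ∈ (O.erase (c + p)).erase b, prof D p b' ≤ 0 := by
          apply Finset.sum_nonpos
          intro b' hb'
          have := hle b' (Finset.mem_of_mem_erase hb')
          linarith
        have := hle b hb
        linarith
      linarith
    rw [hOempty] at hE2
    simp only [Finset.sum_empty, add_zero] at hE2
    have he0 : e = 0 := by
      rw [heR] at hE2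
      have : (e : ℝ) < 1 := by linarith
      have h5 : e < 1 := by exact_mod_cast this
      omega
    have hcard : c + p ∈ O := by
      by_contra h4
      rw [Finset.erase_eq_of_notMem h4] at hOempty
      have h5 : O.card = I.card - 1 - 1 := by
        rw [hO, Finset.card_erase_of_mem hcp', Finset.card_erase_of_mem hp]
      rw [hOempty] at h5
      simp at h5
      omega
    rw [hsumIn, hOempty, if_pos hcard, he0] at hDe
    simp only [Finset.sum_empty, add_zero] at hDe
    rw [hOmem] at hcard
    have h5 := h.cop _ hcard.2.2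
    have h6 : (c + p) ∣ D := ⟨2, by omega⟩
    have h7 : (c + p) ∣ 1 := by
      have := Nat.dvd_gcd (dvd_refl (c + p)) h6
      rwa [h5] at this
    have := Nat.le_of_dvd one_pos h7
    omega
  · -- finite check
    have hexp : ∀ (α : Type) [AddCommMonoid α] (g : ℕ → α), ∑ b ∈ O.erase (c + p), g b =
        (if 4 ∈ O.erase (c + p) then g 4 else 0) + (if 5 ∈ O.erase (c + p) then g 5 else 0) +
        (if 6 ∈ O.erase (c + p) then g 6 else 0) + (if 7 ∈ O.erase (c + p) then g 7 else 0) +
        (if 8 ∈ O.erase (c + p) then g 8 else 0) := by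
      intro α _ g
      have h4 : O.erase (c + p) = (Finset.Icc 4 8).filter (fun b => b ∈ O.erase (c + p)) := by
        ext b
        rw [Finset.mem_filter, Finset.mem_Icc]
        constructor
        · intro hb
          exact ⟨⟨hO4 b (Finset.mem_of_mem_erase hb), hO8 b hb⟩, hb⟩
        · exact fun hb => hb.2
      conv_lhs => rw [h4]
      rw [Finset.sum_filter]
      have h5 : Finset.Icc 4 8 = {4, 5, 6, 7, 8} := by decide
      rw [h5]
      rw [Finset.sum_insert (by decide), Finset.sum_insert (by decide),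
        Finset.sum_insert (by decide), Finset.sum_insert (by decide), Finset.sum_singleton]
      simp only [add_assoc]
    set b4 : Bool := decide (4 ∈ O.erase (c + p)) with hb4
    set b5 : Bool := decide (5 ∈ O.erase (c + p)) with hb5
    set b6 : Bool := decide (6 ∈ O.erase (c + p)) with hb6
    set b7 : Bool := decide (7 ∈ O.erase (c + p)) with hb7
    set b8 : Bool := decide (8 ∈ O.erase (c + p)) with hb8
    set cpb : Bool := decide (c + p ∈ O) with hcpb
    have hchk := chk_all hp2 (show p ≤ 6 by omega) hc3 hc7 he1 b4 b5 b6 b7 b8 cpb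
    have hDval : D = p + comb (fun b => b) p c b4 b5 b6 b7 b8 cpb + e := by
      rw [hDe, hsumIn, hexp ℕ (fun b => b)]
      unfold comb
      simp only [hb4, hb5, hb6, hb7, hb8, hcpb, decide_eq_true_eq]
      ring
    have hok : ∀ b, okb D p c b (decide (b ∈ O.erase (c + p))) = true := by
      intro b
      unfold okb
      by_cases hb : b ∈ O.erase (c + p)
      · have h4 := Finset.mem_of_mem_erase hb
        have h5 := Finset.ne_of_mem_erase hb
        rw [hOmem] at h4
        have h6 : Nat.gcd b D = 1 := h.cop b h4.2.2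
        have h7 : c ≤ b ∨ b % p = 0 := by
          by_cases h8 : p ∣ b
          · right; exact Nat.mod_eq_zero_of_dvd h8
          · left; exact hcmin b h4.2.2 h8
        simp [hb, h4.1, h4.2.1, h5, h6, h7]
      · simp [hb]
    have hcond : (decide (p < c) && (c % p != 0) && (b4 || b5 || b6 || b7 || b8 || cpb) &&
        Nat.gcd p D == 1 && Nat.gcd c D == 1 && (!cpb || Nat.gcd (c + p) D == 1) &&
        okb D p c 4 b4 && okb D p c 5 b5 && okb D p c 6 b6 && okb D p c 7 b7 &&
        okb D p c 8 b8) = true := by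
      have g1 : c % p ≠ 0 := fun h4 => hcp (Nat.dvd_of_mod_eq_zero h4)
      have g2 : Nat.gcd p D = 1 := h.cop p hp
      have g3 : Nat.gcd c D = 1 := h.cop c hc
      have g4 : (!cpb || Nat.gcd (c + p) D == 1) = true := by
        by_cases h4 : c + p ∈ O
        · have h5 : Nat.gcd (c + p) D = 1 := h.cop _ ((hOmem _).1 h4).2.2
          simp [hcpb, h4, h5]
        · simp [hcpb, h4]
      have g5 : (b4 || b5 || b6 || b7 || b8 || cpb) = true := by
        by_contra h4
        simp only [Bool.or_eq_true, not_or, hb4, hb5, hb6, hb7, hb8, hcpb,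
          decide_eq_true_eq] at h4
        obtain ⟨⟨⟨⟨⟨n4, n5⟩, n6⟩, n7⟩, n8⟩, n9⟩ := h4
        have h5 : O.erase (c + p) = ∅ := by
          rw [Finset.eq_empty_iff_forall_notMem]
          intro b hb
          have g6 := hO4 b (Finset.mem_of_mem_erase hb)
          have g7 := hO8 b hb
          interval_cases b <;> contradiction
        rw [Finset.erase_eq_of_notMem n9] at h5
        have h6 : O.card = I.card - 1 - 1 := by
          rw [hO, Finset.card_erase_of_mem hcp', Finset.card_erase_of_mem hp]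
        rw [h5] at h6
        simp at h6
        omega
      have k4 : okb D p c 4 b4 = true := hok 4
      have k5 : okb D p c 5 b5 = true := hok 5
      have k6 : okb D p c 6 b6 = true := hok 6
      have k7 : okb D p c 7 b7 = true := hok 7
      have k8 : okb D p c 8 b8 = true := hok 8
      clear_value b4 b5 b6 b7 b8 cpb
      rw [g5, g4, k4, k5, k6, k7, k8, g2, g3]
      simp [hpc, g1]
    unfold chk at hchk
    simp only [← hDval] at hchk
    rw [hcond] at hchk
    simp only [Bool.not_true, Bool.false_or, decide_eq_true_eq] at hchk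
    -- contradiction with C(p)
    have hCp := h.C p hp
    have hle : ∑ b ∈ I.erase p, f D (xd D p b) ≤
        ∑ b ∈ I.erase p, ((Fq D (srch D p b (D / 2)) : ℚ) : ℝ) := by
      apply Finset.sum_le_sum
      intro b hb
      have hbI := Finset.mem_of_mem_erase hb
      have hx := srch_half hD (h.pos p hp) (h.cop b hbI) (h.ltD h2 hp)
      rw [hx]
      exact f_le_Fq (xd_pos hD (h.pos p hp) (h.cop b hbI) (h.ltD h2 hp))
        (xd_le (show 0 < D by omega))
    have hval : ∑ b ∈ I.erase p, ((Fq D (srch D p b (D / 2)) : ℚ) : ℝ) =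
        ((comb (fun b => Fq D (srch D p b (D / 2))) p c b4 b5 b6 b7 b8 cpb : ℚ) : ℝ) := by
      rw [hsumI, hexp ℝ]
      unfold comb
      simp only [hb4, hb5, hb6, hb7, hb8, hcpb, decide_eq_true_eq, Rat.cast_add]
      have hite : ∀ (P : Prop) [Decidable P] (q : ℚ),
          (((if P then q else 0 : ℚ)) : ℝ) = if P then (q : ℝ) else 0 := by
        intro P _ q
        split_ifs <;> simp
      simp only [hite]
      ring
    have h9 : ((comb (fun b => Fq D (srch D p b (D / 2))) p c b4 b5 b6 b7 b8 cpb : ℚ) : ℝ) < 1 := by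
      exact_mod_cast hchk
    linarith

end Pool.Agent.Helper47.Fr
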